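import Pool.Agent.H52.PSR.Targets

/-!
# Row ASM of the board `psr_modules`: the theorem
-/

set_option autoImplicit false

namespace Pool.Agent.H42.PSR

open Module Pool.Agent.H41.SP Pool.Agent.H52.PSR

universe u v

theorem pf_ASM (h1 : T_COC) (h2 : T_TRA) (h3 : T_OCT) (h4 : T_RED.{u}) (h5 : T_SIM.{u, v}) :
    T_ASM.{u, v} := by
  intro p h t hp F _ _ V _ _ _ Q hp2 ht hF hQ hV
  classical
  have hprime : p.Prime := hp.out
  have := Fintype.ofFinite F
  have hchar : CharP F p := by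
    apply charP_of_card_eq_prime_pow (R := F) (p := p) (f := h)
    rw [Fintype.card_eq_nat_card, hF]
  have hNZ : NeZero t := ⟨by omega⟩
  have h2F : (2 : F) ≠ 0 := by
    intro h0
    have h3 : ((2 : ℕ) : F) = 0 := by exact_mod_cast h0
    rw [CharP.cast_eq_zero_iff F p] at h3
    exact hp2 ((Nat.prime_dvd_prime_iff_eq hprime Nat.prime_two).1 h3)
  have hEF : finrank F (FiniteField.Extension F p t) = t := FiniteField.finrank_extension F p t
  have hEc : Nat.card (FiniteField.Extension F p t) = p ^ (h * t) := by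
    rw [FiniteField.natCard_extension F p t, hF, ← pow_mul]
  have h2E : (2 : FiniteField.Extension F p t) ≠ 0 := by
    intro h0
    apply h2F
    apply (algebraMap F (FiniteField.Extension F p t)).injective
    rw [map_ofNat, map_zero]
    exact h0
  obtain ⟨A, hA1, hA2⟩ := h1 p (h * t) (FiniteField.Extension F p t) hp2 hEc
  obtain ⟨T, hT1, hT2, hT3⟩ := h2 (FiniteField.Extension F p t) h2E A hA1
  obtain ⟨X, hX1, hX2⟩ := h3 (FiniteField.Extension F p t) h2E
  have hXinj : Set.InjOn X (T : Set (Fin 8 → FiniteField.Extension F p t)) := by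
    intro a ha b hb hab
    by_contra hne
    have e1 := hX2 a b (hT1 a ha).2 (hT1 b hb).2 (hT2 a ha b hb hne)
    rw [← hab, inf_idem] at e1
    have e2 := (hX1 a (hT1 a ha).1 (hT1 a ha).2).1
    rw [e1, finrank_bot] at e2
    omega
  have hS0a : ∀ Y ∈ X '' (T : Set (Fin 8 → FiniteField.Extension F p t)),
      finrank (FiniteField.Extension F p t) Y = 4 ∧ ∀ z ∈ Y, N8 z = 0 := by
    rintro Y ⟨a, ha, rfl⟩
    exact hX1 a (hT1 a ha).1 (hT1 a ha).2
  have hS0b : ∀ Y ∈ X '' (T : Set (Fin 8 → FiniteField.Extension F p t)),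
      ∀ Z ∈ X '' (T : Set (Fin 8 → FiniteField.Extension F p t)), Y ≠ Z → Y ⊓ Z = ⊥ := by
    rintro Y ⟨a, ha, rfl⟩ Z ⟨b, hb, rfl⟩ hne
    have hab : a ≠ b := by
      rintro rfl
      exact hne rfl
    exact hX2 a b (hT1 a ha).2 (hT1 b hb).2 (hT2 a ha b hb hab)
  obtain ⟨V0, i1, i2, i3, Q0, S', hQ0, hV0, hS', hcard⟩ :=
    h4 F (FiniteField.Extension F p t) h2F _ hS0a hS0b
  rw [hEF] at hV0 hS'
  obtain ⟨c, e, hc, he⟩ := h5 F V0 V Q0 Q (4 * t - 1) h2F hQ0 hQ (by omega) (by omega)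
  have hmapinj : Function.Injective (Submodule.map (e : V0 →ₗ[F] V)) :=
    Submodule.map_injective_of_injective e.injective
  refine ⟨(Submodule.map (e : V0 →ₗ[F] V)) '' S', ⟨?_, ?_, ?_⟩, ?_⟩
  · rintro Y ⟨Z, hZ, rfl⟩ x hx
    obtain ⟨z, hz, rfl⟩ := Submodule.mem_map.1 hx
    have e1 : Q (e z) = c * Q0 z := he z
    have e2 : (e : V0 →ₗ[F] V) z = e z := rfl
    rw [e2, e1, hS'.tot Z hZ z hz, mul_zero]
  · rintro Y ⟨Z, hZ, rfl⟩
    rw [← hS'.dim Z hZ]
    exact LinearEquiv.finrank_map_eq e Z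
  · rintro Y ⟨Z, hZ, rfl⟩ Y' ⟨Z', hZ', rfl⟩ hne
    have hne' : Z ≠ Z' := by
      rintro rfl
      exact hne rfl
    rw [← Submodule.map_inf _ e.injective, hS'.disj Z hZ Z' hZ' hne', Submodule.map_bot]
  · rw [Set.ncard_image_of_injective _ hmapinj, hcard, hXinj.ncard_image,
      Set.ncard_coe_finset]
    have hp0 : 0 < p ^ (h * t) := pow_pos hprime.pos _
    have e1 : p ^ (h * t) * Nat.card F ^ (3 * t) = p ^ (4 * (h * t)) := by
      rw [hF, ← pow_mul, ← pow_add]
      congr 1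
      ring
    rw [hEc] at hT3
    have e2 : p ^ (h * t) * Nat.card F ^ (3 * t) ≤
        p ^ (h * t) * (T.card * (8 * h * t) ^ (4 * h * t)) := by
      rw [e1]
      calc p ^ (4 * (h * t)) ≤ A.card * (8 * (h * t)) ^ (4 * (h * t)) := hA2
        _ ≤ (T.card * p ^ (h * t)) * (8 * (h * t)) ^ (4 * (h * t)) :=
          Nat.mul_le_mul_right _ hT3
        _ = p ^ (h * t) * (T.card * (8 * h * t) ^ (4 * h * t)) := by
          rw [mul_assoc 8 h t, mul_assoc 4 h t]
          ring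
    exact Nat.le_of_mul_le_mul_left e2 hp0

end Pool.Agent.H42.PSR
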