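import Pool.Agent.H52.PSR.Targets

/-!
# Row SIM of the board `psr_modules`: in odd dimension all non-singular forms are similar
-/

set_option autoImplicit false

namespace Pool.Agent.H42.PSR

open Module Pool.Agent.H41.SP Pool.Agent.H52.PSR

universe u v

/-- in a finite field of odd order every element is a sum of two squares -/
theorem two_squares (F : Type u) [Field F] [Finite F] (h2 : (2 : F) ≠ 0) (c : F) :
    ∃ a b : F, a ^ 2 + b ^ 2 = c := by
  classical
  have := Fintype.ofFinite F
  have hodd : Fintype.card F % 2 = 1 := by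
    apply FiniteField.odd_card_of_char_ne_two
    intro hr
    apply h2
    have h3 := CharP.cast_eq_zero F (ringChar F)
    rw [hr] at h3
    exact_mod_cast h3
  obtain ⟨a, b, hab⟩ := FiniteField.exists_root_sum_quadratic (R := F)
    (f := Polynomial.X ^ 2) (g := Polynomial.X ^ 2 - Polynomial.C c)
    (Polynomial.degree_X_pow 2)
    (Polynomial.degree_X_pow_sub_C (by norm_num) c) hodd
  refine ⟨a, b, ?_⟩
  simp only [Polynomial.eval_pow, Polynomial.eval_X, Polynomial.eval_sub, Polynomial.eval_C] at hab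
  linear_combination hab

/-- the coordinate change -/
theorem coord (F : Type u) [Field F] (n : ℕ) (a b d : F) (hab : a ^ 2 + b ^ 2 ≠ 0) (hd : d ≠ 0) :
    ∃ G : (Fin (2 * n + 1) → F) ≃ₗ[F] (Fin (2 * n + 1) → F), ∀ x,
      ∑ i : Fin (2 * n), G x i.castSucc ^ 2 = (a ^ 2 + b ^ 2) * ∑ i : Fin (2 * n), x i.castSucc ^ 2 ∧
      G x (Fin.last (2 * n)) = d * x (Fin.last (2 * n)) := by
  classical
  have hcard : Fintype.card (Fin n ⊕ Fin n) = Fintype.card (Fin (2 * n)) := by
    simp [two_mul]
  let κ : Fin n ⊕ Fin n ≃ Fin (2 * n) := Fintype.equivOfCardEq hcard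
  let pr : Fin (2 * n + 1) → ((Fin (2 * n + 1) → F) →ₗ[F] F) := fun j => LinearMap.proj j
  let φ : Fin (2 * n + 1) → ((Fin (2 * n + 1) → F) →ₗ[F] F) := fun j =>
    Fin.lastCases (motive := fun _ => (Fin (2 * n + 1) → F) →ₗ[F] F)
      (d • pr (Fin.last (2 * n)))
      (fun i => Sum.elim
        (fun k => a • pr (κ (Sum.inl k)).castSucc - b • pr (κ (Sum.inr k)).castSucc)
        (fun k => b • pr (κ (Sum.inl k)).castSucc + a • pr (κ (Sum.inr k)).castSucc)
        (κ.symm i)) j
  let G0 : (Fin (2 * n + 1) → F) →ₗ[F] (Fin (2 * n + 1) → F) := LinearMap.pi φ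
  have hlast : ∀ x, G0 x (Fin.last (2 * n)) = d * x (Fin.last (2 * n)) := by
    intro x
    have e : φ (Fin.last (2 * n)) = d • pr (Fin.last (2 * n)) := Fin.lastCases_last
    show φ (Fin.last (2 * n)) x = _
    rw [e]
    rfl
  have hl : ∀ x k, G0 x (κ (Sum.inl k)).castSucc =
      a * x (κ (Sum.inl k)).castSucc - b * x (κ (Sum.inr k)).castSucc := by
    intro x k
    have e : φ (κ (Sum.inl k)).castSucc =
        a • pr (κ (Sum.inl k)).castSucc - b • pr (κ (Sum.inr k)).castSucc := by
      simp only [φ, Fin.lastCases_castSucc, Equiv.symm_apply_apply, Sum.elim_inl]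
    show φ _ x = _
    rw [e]
    rfl
  have hr : ∀ x k, G0 x (κ (Sum.inr k)).castSucc =
      b * x (κ (Sum.inl k)).castSucc + a * x (κ (Sum.inr k)).castSucc := by
    intro x k
    have e : φ (κ (Sum.inr k)).castSucc =
        b • pr (κ (Sum.inl k)).castSucc + a • pr (κ (Sum.inr k)).castSucc := by
      simp only [φ, Fin.lastCases_castSucc, Equiv.symm_apply_apply, Sum.elim_inr]
    show φ _ x = _
    rw [e]
    rfl
  have hinj : Function.Injective G0 := by
    rw [← LinearMap.ker_eq_bot, LinearMap.ker_eq_bot']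
    intro x hx
    have hx' : ∀ j, G0 x j = 0 := fun j => by rw [hx]; rfl
    ext j
    refine Fin.lastCases ?_ (fun i => ?_) j
    · have := hx' (Fin.last (2 * n))
      rw [hlast] at this
      rcases mul_eq_zero.1 this with h | h
      · exact absurd h hd
      · exact h
    · obtain ⟨s, rfl⟩ := κ.surjective i
      have key : ∀ k, x (κ (Sum.inl k)).castSucc = 0 ∧ x (κ (Sum.inr k)).castSucc = 0 := by
        intro k
        have h1 := hx' (κ (Sum.inl k)).castSucc
        have h2 := hx' (κ (Sum.inr k)).castSucc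
        rw [hl] at h1
        rw [hr] at h2
        constructor
        · have : (a ^ 2 + b ^ 2) * x (κ (Sum.inl k)).castSucc = 0 := by
            linear_combination a * h1 + b * h2
          exact (mul_eq_zero.1 this).resolve_left hab
        · have : (a ^ 2 + b ^ 2) * x (κ (Sum.inr k)).castSucc = 0 := by
            linear_combination a * h2 - b * h1
          exact (mul_eq_zero.1 this).resolve_left hab
      rcases s with k | k
      · exact (key k).1
      · exact (key k).2
  refine ⟨LinearEquiv.ofInjectiveEndo G0 hinj, fun x => ⟨?_, hlast x⟩⟩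
  have e1 : ∀ j, (LinearEquiv.ofInjectiveEndo G0 hinj) x j = G0 x j := fun j => rfl
  simp only [e1]
  rw [← Equiv.sum_comp κ (fun i => G0 x i.castSucc ^ 2), ← Equiv.sum_comp κ
    (fun i => x i.castSucc ^ 2), Fintype.sum_sum_type, Fintype.sum_sum_type, mul_add,
    Finset.mul_sum, Finset.mul_sum, ← Finset.sum_add_distrib, ← Finset.sum_add_distrib]
  refine Finset.sum_congr rfl fun k _ => ?_
  rw [hl, hr]
  ring

theorem pf_SIM (h1 : T_DG.{u, 0}) (h2 : T_DG.{u, v}) : T_SIM.{u, v} := by
  intro F _ _ V _ _ _ V' _ _ _ Q Q' n h20 hQ hQ' hV hV'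
  obtain ⟨d, e, hd, he⟩ := h1 F V Q (2 * n) h20 hQ hV
  obtain ⟨d', e', hd', he'⟩ := h2 F V' Q' (2 * n) h20 hQ' hV'
  obtain ⟨a, b, hab⟩ := two_squares F h20 (d * d')
  have hc : d * d' ≠ 0 := mul_ne_zero hd hd'
  obtain ⟨G, hG⟩ := coord F n a b d (by rw [hab]; exact hc) hd
  refine ⟨d * d', (e.trans G).trans e'.symm, hc, fun x => ?_⟩
  rw [he', he]
  have e1 : e' (((e.trans G).trans e'.symm) x) = G (e x) := by
    simp [LinearEquiv.trans_apply]
  rw [e1, (hG (e x)).1, (hG (e x)).2, hab]
  ring

end Pool.Agent.H42.PSR
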